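import Pool.Agent.U788.PAL.Comp
import Pool.Agent.U788.PAL.OnePrim

set_option autoImplicit false

namespace Pool.Agent.Results.MP_6a7b9a_lc.IteratedAnnouncements

open Pool.Agent.U788.PAL Pool.Agent.Helper948.Erode

/-- Sanity check: the word of a formula determines the formula. -/
theorem word_inj (m : ℕ) : Function.Injective (word (m := m)) := word_injective

/-- Let `m ≥ 1` be the number of agents. The set of finitely valid formulas of epistemic logic with
common knowledge, public announcements and iterated public announcements is decidable if and only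
if `m = 1`. For `m ≥ 2` agents it is hard for `Π⁰₁` under computable many-one reductions, and hence
not recursively enumerable. -/
theorem result (m : ℕ) (hm : 1 ≤ m) :
    (ComputablePred (ValidWord m) ↔ m = 1) ∧
    (2 ≤ m → (∀ P : ℕ → Prop, REPred (fun n => ¬ P n) → ManyOneReducible P (ValidWord m)) ∧
      ¬ REPred (ValidWord m)) := by
  have key : 2 ≤ m → (∀ P : ℕ → Prop, REPred (fun n => ¬ P n) →
      ManyOneReducible P (ValidWord m)) ∧ ¬ REPred (ValidWord m) := by
    intro hm2
    have h1 : ∀ P : ℕ → Prop, REPred (fun n => ¬ P n) → ManyOneReducible P (ValidWord m) :=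
      fun P hP => hard hm2 P hP
    refine ⟨h1, ?_⟩
    classical
    intro hre
    have hu : REPred (fun n => (u n).Dom) := Partrec.dom_re u_partrec
    have hP : REPred (fun n => ¬ ¬ (u n).Dom) := by simpa only [not_not] using hu
    obtain ⟨f, hf, h⟩ := h1 (fun n => ¬ (u n).Dom) hP
    have hc : REPred (fun n => ¬ (u n).Dom) := by
      have : REPred (fun n => ValidWord m (f n)) := hre.comp hf
      exact this.of_eq (fun n => (h n).symm)
    exact u_not_computable (ComputablePred.computable_iff_re_compl_re.2 ⟨hu, hc⟩)
  refine ⟨⟨fun hc => ?_, ?_⟩, key⟩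
  · by_contra h1
    exact (key (by omega)).2 hc.to_re
  · rintro rfl
    exact One.computable_one

end Pool.Agent.Results.MP_6a7b9a_lc.IteratedAnnouncements
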